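import Pool.Agent.Q32.LR2.Stm

/-!
# Project LR2 (helper32): AXC, cuts of the Cayley graph.
-/

set_option autoImplicit false

namespace Pool.Agent.Q48.LR2

open Q32.LR2 Pool.Agent.TH97.VR

/-- S_AXC. -/
theorem t_AXC : S_AXC := by
  intro F0 F1' Γ Y _ _ S A _ _ e hS
  have F1 := (F1' F0 Y).1
  classical
  haveI : Fintype (Γ ⧸ A) := Fintype.ofFinite _
  -- the representatives
  let rp : Γ → Γ := fun x => (((x⁻¹ : Γ) : Γ ⧸ A).out)⁻¹
  have hrp : ∀ x, x * (rp x)⁻¹ ∈ A := by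
    intro x
    obtain ⟨n, hn⟩ := QuotientGroup.mk_out_eq_mul A x⁻¹
    simp only [rp, inv_inv]
    rw [hn, mul_inv_cancel_left]
    exact n.2
  have hrpa : ∀ (a : A) (x : Γ), rp (a * x) = rp x := by
    intro a x
    simp only [rp]
    have : (((a * x)⁻¹ : Γ) : Γ ⧸ A) = ((x⁻¹ : Γ) : Γ ⧸ A) := by
      rw [QuotientGroup.eq]
      have e1 : ((a : Γ) * x)⁻¹⁻¹ * x⁻¹ = a := by group
      rw [e1]
      exact a.2
    rw [this]
  let ρ0 : Γ → FreeGroup Y := fun x => e ⟨x * (rp x)⁻¹, hrp x⟩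
  have hρ0 : ∀ (a : A) (x : Γ), ρ0 (a * x) = e a * ρ0 x := by
    intro a x
    simp only [ρ0]
    rw [← map_mul]
    congr 1
    apply Subtype.ext
    simp only [Subgroup.coe_mul]
    rw [hrpa, mul_assoc]
  let ρ : Γ → FreeGroup Y := fun x => ρ0 x * (ρ0 1)⁻¹
  have hρ : ∀ (a : A) (x : Γ), ρ (a * x) = e a * ρ x := by
    intro a x
    simp only [ρ]
    rw [hρ0, mul_assoc]
  -- finitely many letters and cosets
  let T : Finset Γ := hS.toFinset ∪ hS.toFinset.image (fun s => s⁻¹)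
  let q : Γ → Γ ⧸ A := fun x => ((x⁻¹ : Γ) : Γ ⧸ A)
  let vv : (Γ ⧸ A) × Γ → FreeGroup Y := fun p => (ρ (p.1.out)⁻¹)⁻¹ * ρ ((p.1.out)⁻¹ * p.2)
  have hv : ∀ x s : Γ, ρ (x * s) = ρ x * vv (q x, s) := by
    intro x s
    have h1 : x = (⟨x * (rp x)⁻¹, hrp x⟩ : A) * rp x := by
      simp
    have h2 : ρ (x * s) = e ⟨x * (rp x)⁻¹, hrp x⟩ * ρ (rp x * s) := by
      rw [← hρ]
      congr 1
      simp
    have h3 : ρ x = e ⟨x * (rp x)⁻¹, hrp x⟩ * ρ (rp x) := by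
      rw [← hρ]
      congr 1
    rw [h2, h3]
    simp only [vv, q, rp]
    group
  refine ⟨ρ, ∑ p ∈ (Finset.univ : Finset (Γ ⧸ A)) ×ˢ T, (vv p).norm, hρ, ?_, ?_⟩
  · simp [ρ]
  intro g y
  -- the pieces
  let P : (Γ ⧸ A) × Γ → Set (Γ × Γ) := fun p =>
    {z | q z.1 = p.1 ∧ z.2 = z.1 * p.2 ∧ ρ z.1 ∈ Hs g y ∧ ρ z.2 ∉ Hs g y}
  have hsub : cob (Cay S) (ρ ⁻¹' Hs g y) ⊆
      ⋃ p ∈ ((Finset.univ : Finset (Γ ⧸ A)) ×ˢ T), P p := by
    rintro ⟨x, x'⟩ ⟨⟨_, hadj⟩, hx, hx'⟩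
    simp only [Set.mem_iUnion]
    have hT : x⁻¹ * x' ∈ T := by
      simp only [T, Finset.mem_union, Finset.mem_image, Set.Finite.mem_toFinset]
      rcases hadj with h | h
      · exact Or.inl h
      · exact Or.inr ⟨_, h, by group⟩
    refine ⟨(q x, x⁻¹ * x'), Finset.mem_product.2 ⟨Finset.mem_univ _, hT⟩, rfl, ?_, hx, hx'⟩
    simp
  have hPinj : ∀ p, Set.InjOn (fun z : Γ × Γ => ρ z.1) (P p) := by
    intro p z hz z' hz' hzz
    simp only at hzz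
    have h1 : q z.1 = q z'.1 := hz.1.trans hz'.1.symm
    have h2 : z'.1 * z.1⁻¹ ∈ A := by
      simp only [q] at h1
      rw [QuotientGroup.eq] at h1
      have := Subgroup.inv_mem _ h1
      simpa using this
    have h3 : ρ z'.1 = e ⟨_, h2⟩ * ρ z.1 := by
      rw [← hρ]
      congr 1
      simp
    rw [← hzz] at h3
    have h4 : e ⟨z'.1 * z.1⁻¹, h2⟩ = 1 := by
      have := congrArg (fun t => t * (ρ z.1)⁻¹) h3
      simpa using this.symm
    have h5 : (⟨z'.1 * z.1⁻¹, h2⟩ : A) = 1 := by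
      rw [← e.map_one] at h4
      exact e.injective h4
    have h6 : z'.1 * z.1⁻¹ = 1 := congrArg Subtype.val h5
    have h7 : z.1 = z'.1 := (mul_inv_eq_one.1 h6).symm
    refine Prod.ext h7 ?_
    rw [hz.2.1, hz'.2.1, h7]
  have hPim : ∀ p, (fun z : Γ × Γ => ρ z.1) '' (P p) ⊆
      {u | u ∈ Hs g y ∧ u * vv p ∉ Hs g y} := by
    rintro p _ ⟨z, hz, rfl⟩
    refine ⟨hz.2.2.1, ?_⟩
    have h1 := hz.2.2.2
    rw [hz.2.1, hv, hz.1] at h1
    exact h1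
  have hPfin : ∀ p, (P p).Finite := by
    intro p
    exact Set.Finite.of_finite_image ((F1 (vv p) g y).1.subset (hPim p)) (hPinj p)
  have hPcard : ∀ p, (P p).ncard ≤ (vv p).norm := by
    intro p
    rw [← Set.ncard_image_of_injOn (hPinj p)]
    exact (Set.ncard_le_ncard (hPim p) (F1 (vv p) g y).1).trans (F1 (vv p) g y).2
  have hUfin : (⋃ p ∈ ((Finset.univ : Finset (Γ ⧸ A)) ×ˢ T), P p).Finite :=
    Set.Finite.biUnion (Finset.finite_toSet _) (fun p _ => hPfin p)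
  refine ⟨hUfin.subset hsub, ?_⟩
  refine (Set.ncard_le_ncard hsub hUfin).trans ?_
  refine (Finset.set_ncard_biUnion_le _ _).trans ?_
  exact Finset.sum_le_sum fun p _ => hPcard p

end Pool.Agent.Q48.LR2
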