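import Pool.Agent.Q32.LR2.Stm

/-!
# Project LR2 (helper32): F4, malnormality of the subgroups generated by letters.
-/

set_option autoImplicit false

namespace Pool.Agent.Q48.LR2

open Q32.LR2

/-- S_F4. -/
theorem t_F4 : S_F4 := by
  intro F0 F1' F2' _ Y _ W a b hb ha hab
  have F1 := (F1' F0 Y).2
  have F2 := F2' F0 Y W
  by_contra hne
  obtain ⟨y, hy, k, hk⟩ : ∃ y, y ∉ W ∧ ∃ g, ¬ (1 ∈ Hs g y ↔ b ∈ Hs g y) := by
    by_contra hcon
    push Not at hcon
    apply hb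
    have h1 := (F2 1 b).2 (fun y hy g => hcon y hy g)
    simpa using h1
  have hfin : {p : FreeGroup Y × Y | ¬ ((1 : FreeGroup Y) ∈ Hs p.1 p.2 ↔ b ∈ Hs p.1 p.2)}.Finite := by
    refine ((F1 1 b).union (F1 b 1)).subset ?_
    intro p hp
    by_cases h1 : (1 : FreeGroup Y) ∈ Hs p.1 p.2
    · left
      exact ⟨h1, fun h2 => hp ⟨fun _ => h2, fun _ => h1⟩⟩
    · right
      refine ⟨?_, h1⟩
      by_contra h2
      exact hp ⟨fun h => absurd h h1, fun h => absurd h h2⟩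
  have hpow : ∀ n : ℕ, b⁻¹ * a ^ n * b = (b⁻¹ * a * b) ^ n := by
    intro n
    have := conj_pow (i := n) (a := b⁻¹) (b := a)
    rw [inv_inv] at this
    exact this.symm
  have hmem : ∀ n : ℕ, ((a ^ n * k, y) : FreeGroup Y × Y) ∈
      {p : FreeGroup Y × Y | ¬ ((1 : FreeGroup Y) ∈ Hs p.1 p.2 ↔ b ∈ Hs p.1 p.2)} := by
    intro n hcon
    apply hk
    have h1 : (1 : FreeGroup Y) ∈ Hs (a ^ n * k) y ↔ a ^ n ∈ Hs (a ^ n * k) y := by
      refine (F2 1 (a ^ n)).1 ?_ y hy _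
      rw [inv_one, one_mul]
      exact Subgroup.pow_mem _ ha n
    have h2 : b ∈ Hs (a ^ n * k) y ↔ a ^ n * b ∈ Hs (a ^ n * k) y := by
      refine (F2 b (a ^ n * b)).1 ?_ y hy _
      rw [← mul_assoc, hpow]
      exact Subgroup.pow_mem _ hab n
    have h3 : a ^ n ∈ Hs (a ^ n * k) y ↔ 1 ∈ Hs k y := by
      unfold Hs
      simp only [Set.mem_setOf_eq]
      have e1 : (a ^ n * k)⁻¹ * a ^ n = k⁻¹ * 1 := by group
      rw [e1]
    have h4 : a ^ n * b ∈ Hs (a ^ n * k) y ↔ b ∈ Hs k y := by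
      unfold Hs
      simp only [Set.mem_setOf_eq]
      have e1 : (a ^ n * k)⁻¹ * (a ^ n * b) = k⁻¹ * b := by group
      rw [e1]
    rw [← h3, ← h4, ← h1, ← h2]
    exact hcon
  have hinj : Function.Injective fun n : ℕ => ((a ^ n * k, y) : FreeGroup Y × Y) := by
    intro m n hmn
    simp only [Prod.mk.injEq, mul_left_inj, and_true] at hmn
    have hnf : ¬ IsOfFinOrder a := by
      intro h
      obtain ⟨j, hj, h1⟩ := isOfFinOrder_iff_pow_eq_one.1 h
      exact hne ((pow_eq_one_iff_left (by omega)).1 h1)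
    exact (injective_pow_iff_not_isOfFinOrder.2 hnf) hmn
  exact hfin.not_infinite ((Set.infinite_range_of_injective hinj).mono
    (by rintro _ ⟨n, rfl⟩; exact hmem n))

end Pool.Agent.Q48.LR2
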