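import Pool.Agent.Q32.LR2.Stm

/-!
# Project LR2 (helper32): MAL, malnormality in `G`.
-/

set_option autoImplicit false

namespace Pool.Agent.Q48.LR2

open Q32.LR2

/-- S_MAL. -/
theorem t_MAL : S_MAL := by
  intro SUB F0 F1 F2 F3 F4 G Y _ _ F H _ e W W' _ hFH c hc hcn k hkF hkL hck
  obtain ⟨s1, s2, s3, s4, s5, s6, s7, s8, _, _⟩ := SUB G Y F H e
  obtain ⟨c1, hc1, h, hh, rfl⟩ := (s6 W' c).1 hc
  have hHL : ∀ x ∈ H, x ∈ LL F H e W := fun x hx => (le_sup_left : H ≤ LL F H e W) hx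
  have hAL : ∀ x ∈ AA F H e W, x ∈ LL F H e W := fun x hx => (le_sup_right : _ ≤ LL F H e W) hx
  have hc1n : c1 ∉ AA F H e W := by
    intro hcon
    exact hcn (Subgroup.mul_mem _ (hAL _ hcon) (hHL _ hh))
  have hkA : k ∈ AA F H e W := by
    rw [← s8 W hFH]
    exact ⟨hkF, hkL⟩
  have hc1F : c1 ∈ F := s2 W' (s3 W' hc1)
  have hkc : c1⁻¹ * k * c1 ∈ AA F H e W := by
    rw [← s8 W hFH]
    refine ⟨Subgroup.mul_mem _ (Subgroup.mul_mem _ (Subgroup.inv_mem _ hc1F) hkF) hc1F, ?_⟩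
    have e1 : c1⁻¹ * k * c1 = h * ((c1 * h)⁻¹ * k * (c1 * h)) * h⁻¹ := by group
    rw [e1]
    exact Subgroup.mul_mem _ (Subgroup.mul_mem _ (hHL _ hh) hck)
      (Subgroup.inv_mem _ (hHL _ hh))
  obtain ⟨h', hh', hcb⟩ : ∃ h' ∈ H, h'⁻¹ * c1 * h' ∉ BB F e W := by
    by_contra hcon
    push Not at hcon
    exact hc1n hcon
  have hconj : ∀ x ∈ F, h'⁻¹ * x * h' ∈ F := by
    intro x hx
    have := (inferInstance : F.Normal).conj_mem x hx h'⁻¹
    rwa [inv_inv] at this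
  let a : F := ⟨h'⁻¹ * k * h', hconj k hkF⟩
  let b : F := ⟨h'⁻¹ * c1 * h', hconj c1 hc1F⟩
  have ha : e a ∈ FW W := (s1 W a).1 (hkA h' hh')
  have hb : e b ∉ FW W := fun hcon => hcb ((s1 W b).2 hcon)
  have hab : (e b)⁻¹ * e a * e b ∈ FW W := by
    rw [← map_inv, ← map_mul, ← map_mul]
    refine (s1 W _).1 ?_
    have e1 : ((b⁻¹ * a * b : F) : G) = h'⁻¹ * (c1⁻¹ * k * c1) * h' := by
      simp only [Subgroup.coe_mul, Subgroup.coe_inv, a, b]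
      group
    rw [e1]
    exact hkc h' hh'
  have h1 := F4 F0 (F1) F2 F3 Y W (e a) (e b) hb ha hab
  have h2 : a = 1 := by
    rw [← e.map_one] at h1
    exact e.injective h1
  have h3 : h'⁻¹ * k * h' = 1 := congrArg Subtype.val h2
  have e2 : k = h' * (h'⁻¹ * k * h') * h'⁻¹ := by group
  rw [e2, h3]
  group

end Pool.Agent.Q48.LR2
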